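import Pool.Agent.H1.SolFam.Main

/-!
# Families of soluble groups whose associated graphs are always connected

For a family `F` of finite soluble groups (closed under isomorphism) and a finite group `G`, the
elements `x ≠ y` of `G` are adjacent in `Λ_F(G)` iff `⟨x, y⟩ ∈ F`, the set `I_F(G)` consists of the
`x` with `⟨x, y⟩ ∈ F` for all `y ≠ x`, and `Γ_F(G)` is the subgraph induced on `G ∖ I_F(G)`. Q1 asks
for all `F` such that `Γ_F(G)` is connected for every finite `G ∉ F`.

For a group `Y` generated by two elements let `Σ(Y)` be the non-generating graph of `Y` on the set of
the elements which belong to a generating pair (`x ≠ y` are adjacent iff `⟨x, y⟩ ≠ Y`). It does not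
depend on `F`. The criterion is: for each finite soluble `Y ∉ F` generated by two elements, `Σ(Y)` is
connected or there are `x ≠ y` in `Y` with `⟨x, y⟩ ∉ F` such that `x` belongs to no generating pair
of `Y`.

We prove, for every family `F` of finite soluble groups, without any hypothesis:

1. `Γ_F(G)` is connected for every finite soluble `G ∉ F` if and only if `F` satisfies the criterion.
2. If `Γ_F(G)` is connected for every finite `G ∉ F`, then `F` satisfies the criterion.
3. If `F` satisfies the criterion, then `Γ_F(G)` is connected for every finite group `G` such that
   `Γ_S(G)` is connected and has a vertex, where `S` is the family of all finite soluble groups.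

By the facts which the problem file lists as known (`I_S(G) = R(G)`, and `Γ_S(G)` is connected), 3
applies to every insoluble finite group `G`. So, together with them, the criterion is necessary and
sufficient in Q1. The groups `Y` with disconnected `Σ(Y)` are known (Lucchini and Nemmi).

Proof. If `⟨u, v⟩ = H ∉ F`, then `Γ_F(H)` contains `u`, `v` and is a subgraph of `Γ_F(G)`. So all
follows from the connectedness of `Γ_F(Y)` for the `Y ∉ F` with two generators, by replacing each edge
by a path. In such a `Y`, by induction on the order, two vertices which do not generate `Y` are
connected in `Γ_F(Y)`; a vertex of `Γ_F(Y)` which belongs to no generating pair of `Y` is therefore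
connected to all others, and if there is none then the vertices of `Γ_F(Y)` and `Σ(Y)` are the same.
-/

namespace Pool.Agent.Results.MP_28567f_al.ConnectedFamilies

open SolFam

theorem result :
    (∀ F : Family, SolConnected F ↔ Criterion F) ∧
    (∀ F : Family, AlwaysConnected F → Criterion F) ∧
    (∀ F : Family, Criterion F → ∀ (G : Type) [Group G] [Finite G],
      (Gam Sol G).Preconnected → Iso Sol G ≠ Set.univ → (Gam F G).Preconnected) := by
  refine ⟨fun F => ⟨criterion_of_solConnected F, solConnected_of_criterion F⟩, ?_, ?_⟩
  · intro F h
    exact criterion_of_solConnected F fun G _ _ _ hG => h G hG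
  · intro F h G _ _ h1 h2
    exact connected_of_criterion F h G h1 h2

end Pool.Agent.Results.MP_28567f_al.ConnectedFamilies
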