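import Pool.Agent.H1.SolFam.NilpMain

/-!
# The nilpotent members of families of soluble groups whose associated graphs are always connected

The nilpotent part of Q1, with an explicit answer.

1. If `F` is a family of finite soluble groups such that `Γ_F(G)` is connected for every finite
   soluble group `G ∉ F` (in particular if this holds for every finite `G ∉ F`), then `F` contains
   all nontrivial finite cyclic groups and all nontrivial finite `p`-groups which are generated by
   two elements, for all primes `p`.
2. Conversely let `C` be any class of groups, closed under isomorphism, which contains these groups.
   Then there is a family `F` of finite soluble groups whose nontrivial nilpotent members are exactly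
   those of `C`, such that `Γ_F(G)` is connected for every finite soluble `G ∉ F`, and also for every
   finite group `G` such that `Γ_S(G)` is connected and has a vertex, where `S` is the family of all
   finite soluble groups (by the facts which the problem file lists as known, this includes all
   insoluble finite groups `G`).

So the classes of nontrivial nilpotent groups which occur as the nilpotent part of a family as in Q1
are exactly the classes which contain the groups of 1.

Proof. By the criterion of the hand-in `ConnectedFamilies`. The graph `Σ(Y)` (the non-generating graph
on the members of generating pairs) is disconnected for nontrivial cyclic groups and for `p`-groups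
with two generators, and no pair in these groups can be exceptional. It is connected for all other
finite nilpotent groups: modulo the maximal subgroups of index `p` an element can be replaced by any
other one without changing it modulo the remaining maximal subgroups; if `p` is a prime for which each
element lies in a maximal subgroup of index `p`, then `x`, `c(x, z)`, `c(y, z)`, `y` is a path, where
`c(x, z)` is `x` modulo the maximal subgroups of index `p` and `z` modulo the others.
-/

namespace Pool.Agent.Results.MP_28567f_al.NilpotentMembers

open SolFam

theorem result :
    (∀ F : Family, (SolConnected F ∨ AlwaysConnected F) →
      ∀ (G : Type) [Group G] [Finite G] [Nontrivial G],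
        (IsCyclic G ∨ (TwoGen G ∧ ∃ p : ℕ, p.Prime ∧ IsPGroup p G)) → F.mem G) ∧
    (∀ C : (∀ (G : Type) [Group G], Prop),
      (∀ (G H : Type) [Group G] [Group H], Nonempty (G ≃* H) → C G → C H) →
      (∀ (G : Type) [Group G] [Finite G] [Nontrivial G],
        (IsCyclic G ∨ (TwoGen G ∧ ∃ p : ℕ, p.Prime ∧ IsPGroup p G)) → C G) →
      ∃ F : Family,
        (∀ (G : Type) [Group G] [Finite G] [Nontrivial G], Group.IsNilpotent G →
          (F.mem G ↔ C G)) ∧
        SolConnected F ∧
        ∀ (G : Type) [Group G] [Finite G],
          (Gam Sol G).Preconnected → Iso Sol G ≠ Set.univ → (Gam F G).Preconnected) := by
  constructor
  · intro F hF G _ _ _ hG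
    have hcrit : Criterion F := by
      rcases hF with h | h
      · exact criterion_of_solConnected F h
      · exact criterion_of_solConnected F fun G _ _ _ hG => h G hG
    rcases hG with h | ⟨h2, p, hp, hpG⟩
    · exact crit_cyclic F hcrit G
    · exact crit_pgroup F hcrit hp _ G rfl hpG h2
  · intro C hC hc
    have hcrit := nilFam_criterion C hC hc
    refine ⟨nilFam C hC, ?_, solConnected_of_criterion _ hcrit,
      fun G _ _ h1 h2 => connected_of_criterion _ hcrit G h1 h2⟩
    intro G _ _ hnt hnil
    constructor
    · intro h
      exact h.2.2 hnt hnil
    · intro h
      exact ⟨inferInstance, inferInstance, fun _ _ => h⟩

end Pool.Agent.Results.MP_28567f_al.NilpotentMembers
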